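import Pool.Agent.H27.HP.T

/-!
Rows MNP and CLK of hbp: strong monotonicity and uniform convexity for `p ≥ 2`.
-/

set_option autoImplicit false

namespace Pool.Agent.H91.HP
open MeasureTheory Set Filter Topology Pool.Agent.H80.HS Pool.Agent.H93.HQ Pool.Agent.H27.HB
open Pool.Agent.H27.HP
open scoped ContDiff ENNReal

/-- the inequality for the norms and the inner product -/
lemma mnp_real (s t x e : ℝ) (hs : 0 ≤ s) (ht : 0 ≤ t) (he : 0 ≤ e) (hx : |x| ≤ s * t) :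
    ((s + t) / 2) ^ e * (s ^ 2 + t ^ 2 - 2 * x) ≤
      s ^ e * s ^ 2 + t ^ e * t ^ 2 - (s ^ e + t ^ e) * x := by
  have hm : 0 ≤ (s + t) / 2 := by positivity
  set A := ((s + t) / 2) ^ e with hA
  have hA0 : 0 ≤ A := Real.rpow_nonneg hm e
  -- the value at `x = s t`
  have h1 : 0 ≤ (s ^ e * s - t ^ e * t) * (s - t) - A * (s - t) ^ 2 := by
    rcases le_total t s with h | h
    · have h2 : t ^ e ≤ s ^ e := Real.rpow_le_rpow ht h he
      have h3 : A ≤ s ^ e := Real.rpow_le_rpow hm (by linarith) he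
      have h4 : s ^ e * (s - t) ≤ s ^ e * s - t ^ e * t := by nlinarith
      have h5 : A * (s - t) ≤ s ^ e * (s - t) := mul_le_mul_of_nonneg_right h3 (by linarith)
      nlinarith [mul_le_mul_of_nonneg_right (h5.trans h4) (by linarith : 0 ≤ s - t)]
    · have h2 : s ^ e ≤ t ^ e := Real.rpow_le_rpow hs h he
      have h3 : A ≤ t ^ e := Real.rpow_le_rpow hm (by linarith) he
      have h4 : t ^ e * (t - s) ≤ t ^ e * t - s ^ e * s := by nlinarith
      have h5 : A * (t - s) ≤ t ^ e * (t - s) := mul_le_mul_of_nonneg_right h3 (by linarith)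
      nlinarith [mul_le_mul_of_nonneg_right (h5.trans h4) (by linarith : 0 ≤ t - s)]
  -- the value at `x = - s t`
  have h2 : 0 ≤ (s ^ e * s + t ^ e * t) * (s + t) - A * (s + t) ^ 2 := by
    have hc := (convexOn_rpow (p := e + 1) (by linarith)).2 (Set.mem_Ici.2 hs) (Set.mem_Ici.2 ht)
      (by norm_num : (0 : ℝ) ≤ 1 / 2) (by norm_num : (0 : ℝ) ≤ 1 / 2) (by norm_num)
    simp only [smul_eq_mul] at hc
    have e1 : 1 / 2 * s + 1 / 2 * t = (s + t) / 2 := by ring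
    have hne : e + 1 ≠ 0 := by linarith
    rw [e1, Real.rpow_add_one' hm hne, Real.rpow_add_one' hs hne, Real.rpow_add_one' ht hne] at hc
    rw [← hA] at hc
    have h3 : A * (s + t) ≤ s ^ e * s + t ^ e * t := by nlinarith
    have h4 : 0 ≤ s + t := by linarith
    nlinarith [mul_le_mul_of_nonneg_right h3 h4]
  have hx1 := (abs_le.1 hx).1
  have hx2 := (abs_le.1 hx).2
  -- affine in `x`
  rcases le_total (s ^ e + t ^ e - 2 * A) 0 with h | h
  · nlinarith [mul_le_mul_of_nonpos_left hx1 h]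
  · nlinarith [mul_le_mul_of_nonneg_left hx2 h]

theorem pf_MNP : T_MNP := by
  intro n p hp a b
  have he : 0 ≤ p - 2 := by linarith
  have h := mnp_real ‖a‖ ‖b‖ (inner ℝ a b) (p - 2) (norm_nonneg _) (norm_nonneg _) he
    (abs_real_inner_le_norm a b)
  have e1 : (2 : ℝ) ^ (2 - p) * (‖a‖ + ‖b‖) ^ (p - 2) = ((‖a‖ + ‖b‖) / 2) ^ (p - 2) := by
    rw [Real.div_rpow (by positivity) (by norm_num)]
    have : (2 : ℝ) - p = -(p - 2) := by ring
    rw [this, Real.rpow_neg (by norm_num)]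
    ring
  have e2 : ‖a - b‖ ^ 2 = ‖a‖ ^ 2 + ‖b‖ ^ 2 - 2 * inner ℝ a b := by
    rw [@norm_sub_sq_real]; ring
  have e3 : inner ℝ (‖a‖ ^ (p - 2) • a - ‖b‖ ^ (p - 2) • b) (a - b) =
      ‖a‖ ^ (p - 2) * ‖a‖ ^ 2 + ‖b‖ ^ (p - 2) * ‖b‖ ^ 2 -
        (‖a‖ ^ (p - 2) + ‖b‖ ^ (p - 2)) * inner ℝ a b := by
    rw [inner_sub_left, inner_sub_right, inner_sub_right, real_inner_smul_left,
      real_inner_smul_left, real_inner_smul_left, real_inner_smul_left,
      real_inner_self_eq_norm_sq, real_inner_self_eq_norm_sq, real_inner_comm a b]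
    ring
  rw [e1, e2, e3]
  exact h

/-- the pointwise inequality of Clarkson -/
lemma clk_point {n : ℕ} (p : ℝ) (hp : 2 ≤ p) (x y : G n) :
    ‖x - y‖ ^ p ≤ 2 ^ (p - 1) * (‖x‖ ^ p + ‖y‖ ^ p - 2 * ‖(1 / 2 : ℝ) • (x + y)‖ ^ p) := by
  have hp2 : 1 ≤ p / 2 := by linarith
  set u := ‖(1 / 2 : ℝ) • (x + y)‖ with hu
  set v := ‖(1 / 2 : ℝ) • (x - y)‖ with hv
  have hu0 : 0 ≤ u := norm_nonneg _
  have hv0 : 0 ≤ v := norm_nonneg _
  have pw : ∀ r : ℝ, 0 ≤ r → (r ^ 2) ^ (p / 2) = r ^ p := by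
    intro r hr
    rw [← Real.rpow_natCast r 2, ← Real.rpow_mul hr]
    congr 1
    push_cast
    ring
  have hpar : u ^ 2 + v ^ 2 = (1 / 2) * ‖x‖ ^ 2 + (1 / 2) * ‖y‖ ^ 2 := by
    rw [hu, hv, norm_smul, norm_smul, mul_pow, mul_pow, @norm_add_sq_real, @norm_sub_sq_real,
      Real.norm_eq_abs, abs_of_pos (by norm_num : (0 : ℝ) < 1 / 2)]
    ring
  have h1 : u ^ p + v ^ p ≤ (u ^ 2 + v ^ 2) ^ (p / 2) := by
    rw [← pw u hu0, ← pw v hv0]
    exact Real.add_rpow_le_rpow_add (by positivity) (by positivity) hp2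
  have h2 := (convexOn_rpow hp2).2 (Set.mem_Ici.2 (by positivity : 0 ≤ ‖x‖ ^ 2))
    (Set.mem_Ici.2 (by positivity : 0 ≤ ‖y‖ ^ 2))
      (by norm_num : (0 : ℝ) ≤ 1 / 2) (by norm_num : (0 : ℝ) ≤ 1 / 2) (by norm_num)
  simp only [smul_eq_mul] at h2
  rw [pw _ (norm_nonneg x), pw _ (norm_nonneg y), ← hpar] at h2
  have h3 : u ^ p + v ^ p ≤ 1 / 2 * ‖x‖ ^ p + 1 / 2 * ‖y‖ ^ p := h1.trans h2
  have h4 : ‖x - y‖ = 2 * v := by
    rw [hv, norm_smul, Real.norm_eq_abs, abs_of_pos (by norm_num : (0 : ℝ) < 1 / 2)]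
    ring
  have h5 : (2 : ℝ) ^ p = 2 ^ (p - 1) * 2 := by
    rw [← Real.rpow_add_one (by norm_num)]
    congr 1
    ring
  rw [h4, Real.mul_rpow (by norm_num) hv0, h5]
  have h6 : (0 : ℝ) < 2 ^ (p - 1) := Real.rpow_pos_of_pos (by norm_num) _
  nlinarith [mul_le_mul_of_nonneg_left h3 h6.le]

theorem pf_CLK : T_CLK := by
  intro n p hp f g hf hg'
  have hp0 : 0 < p := by linarith
  have hq0 : ENNReal.ofReal p ≠ 0 := by
    rw [ne_eq, ENNReal.ofReal_eq_zero]; linarith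
  have hint : ∀ h : H n → G n, MemLp h (ENNReal.ofReal p) →
      Integrable (fun z => ‖h z‖ ^ p) := by
    intro h hh
    have := hh.integrable_norm_rpow hq0 ENNReal.ofReal_ne_top
    rwa [ENNReal.toReal_ofReal hp0.le] at this
  have i1 := hint f hf
  have i2 := hint g hg'
  have i3 : Integrable (fun z => ‖f z - g z‖ ^ p) := hint (fun z => f z - g z) (hf.sub hg')
  have i4 : Integrable (fun z => ‖(1 / 2 : ℝ) • (f z + g z)‖ ^ p) :=
    hint (fun z => (1 / 2 : ℝ) • (f z + g z)) ((hf.add hg').const_smul (1 / 2 : ℝ))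
  have i12 : Integrable (fun z => ‖f z‖ ^ p + ‖g z‖ ^ p) := i1.add i2
  have i5 : Integrable (fun z => 2 * ‖(1 / 2 : ℝ) • (f z + g z)‖ ^ p) := i4.const_mul 2
  unfold en
  calc ∫ z, ‖f z - g z‖ ^ p
      ≤ ∫ z, 2 ^ (p - 1) * (‖f z‖ ^ p + ‖g z‖ ^ p - 2 * ‖(1 / 2 : ℝ) • (f z + g z)‖ ^ p) := by
        apply integral_mono i3 ((i12.sub i5).const_mul _)
        intro z
        exact clk_point p hp (f z) (g z)
    _ = _ := by
        rw [integral_const_mul, integral_sub i12 i5, integral_const_mul, integral_add i1 i2]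

end Pool.Agent.H91.HP
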