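import Pool.Agent.H27.HP.T
import Pool.Agent.H27.HB.FIN
import Pool.Agent.H27.HB.U0X
import Pool.Agent.H20.HQ.MZ

/-!
Row MSR of hbp: the set on which the weight is small has small measure.
-/

set_option autoImplicit false

namespace Pool.Agent.H91.HP
open MeasureTheory Set Filter Topology Pool.Agent.H80.HS Pool.Agent.H93.HQ Pool.Agent.H27.HB
open Pool.Agent.H27.HP
open scoped ContDiff ENNReal

lemma msr_meas (hGRU : T_GRU) (n : ℕ) : Measurable (fun z : H n => ‖hg (u0 n) z‖) := by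
  have h1 : (fun z : H n => ‖hg (u0 n) z‖) =
      fun z => 2 * n * mz z * ww z ^ (-((n : ℝ) + 1) / 2) := funext fun z => (hGRU n z).2
  rw [h1]
  have h2 := (continuous_mz (n := n)).measurable
  have h3 : Measurable (ww : H n → ℝ) := by
    have := continuous_sq (n := n)
    have h4 : Continuous (ww : H n → ℝ) := by unfold ww; fun_prop
    exact h4.measurable
  exact (h2.const_mul (2 * (n : ℝ))).mul (h3.pow_const _)

/-- the gradient of the Jerison-Lee function is small on a small part of a ball only -/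
lemma msr_small (hGRU : T_GRU) (n : ℕ) (hn : 1 ≤ n) (R η : ℝ) (hη : 0 < η) :
    ∃ t : ℝ, 0 < t ∧ t ≤ 1 ∧
      volume {z : H n | N z ≤ R ∧ ‖hg (u0 n) z‖ ≤ 2 * t} ≤ ENNReal.ofReal η := by
  set S : ℕ → Set (H n) := fun j => {z | N z ≤ R ∧ ‖hg (u0 n) z‖ ≤ 2 * (1 / ((j : ℝ) + 1))}
    with hS
  have hmeas : ∀ j, MeasurableSet (S j) := fun j =>
    (measurableSet_le (continuous_N (n := n)).measurable measurable_const).inter
      (measurableSet_le (msr_meas hGRU n) measurable_const)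
  have hanti : Antitone S := by
    intro i j hij z hz
    refine ⟨hz.1, hz.2.trans ?_⟩
    have : (i : ℝ) ≤ j := by exact_mod_cast hij
    gcongr
  have hfin : volume (S 0) ≠ ⊤ := by
    refine ((measure_mono ?_).trans_lt (fin_ball (n := n) (R + 1)).lt_top).ne
    intro z hz
    show N z < R + 1
    linarith [hz.1]
  have hlim := tendsto_measure_iInter_atTop (μ := (volume : Measure (H n)))
    (fun j => (hmeas j).nullMeasurableSet) hanti ⟨0, hfin⟩
  have hzero : volume (⋂ j, S j) = 0 := by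
    have h1 := Pool.Agent.H20.HQ.pf_MZ n hn
    refine measure_mono_null ?_ (ae_iff.1 h1)
    intro z hz
    show ¬ 0 < mz z
    intro hpos
    have hz' := Set.mem_iInter.1 hz
    have h2 : ‖hg (u0 n) z‖ ≤ 0 := by
      have t0 : Tendsto (fun j : ℕ => 2 * (1 / ((j : ℝ) + 1))) atTop (𝓝 (2 * 0)) :=
        tendsto_one_div_add_atTop_nhds_zero_nat.const_mul 2
      rw [mul_zero] at t0
      exact ge_of_tendsto' t0 fun j => (hz' j).2
    rw [(hGRU n z).2] at h2
    have h3 : 0 < ww z ^ (-((n : ℝ) + 1) / 2) := Real.rpow_pos_of_pos (u0x_ww_pos z) _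
    have h4 : (0 : ℝ) < n := by exact_mod_cast hn
    have : 0 < 2 * n * mz z * ww z ^ (-((n : ℝ) + 1) / 2) := by positivity
    linarith
  rw [hzero] at hlim
  have hpos : (0 : ℝ≥0∞) < ENNReal.ofReal η := ENNReal.ofReal_pos.2 hη
  obtain ⟨j, hj⟩ := (hlim.eventually (gt_mem_nhds hpos)).exists
  refine ⟨1 / ((j : ℝ) + 1), by positivity, ?_, hj.le⟩
  rw [div_le_one (by positivity)]
  have : (0 : ℝ) ≤ j := Nat.cast_nonneg j
  linarith

theorem pf_MSR (hGRU : T_GRU) : T_MSR := by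
  intro n hn p c C g hp hpt hc _ hint hN R τ η hτ hη
  obtain ⟨t, ht0, ht1, ht⟩ := msr_small hGRU n hn R (η / 2) (by linarith)
  have hC : 0 < C := (hc 0).1.trans_le (hc 0).2
  set m : ℝ := min 1 (t / C) with hm
  have hm0 : 0 < m := lt_min one_pos (by positivity)
  have hm1 : m ≤ 1 := min_le_left _ _
  -- the power of `m` tends to one
  have hpow : Tendsto (fun k => m ^ (p k - 2)) atTop (𝓝 1) := by
    have h1 : Tendsto (fun k => p k - 2) atTop (𝓝 (2 - 2)) := hpt.sub_const 2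
    rw [sub_self] at h1
    have h2 := (Real.continuousAt_const_rpow hm0.ne' (b := 0)).tendsto.comp h1
    rw [Real.rpow_zero] at h2
    exact h2
  have e1 : ∀ᶠ k in atTop, 1 - τ < m ^ (p k - 2) := hpow.eventually (lt_mem_nhds (by linarith))
  have e2 : ∀ᶠ k in atTop, N2 (p k) (fun z => c k • g k z) < t ^ 3 * (η / 2) :=
    hN.eventually (gt_mem_nhds (by positivity))
  filter_upwards [e1, e2] with k h1 h2
  set F : H n → ℝ := fun z => (‖hg (u0 n) z‖ + ‖c k • g k z‖) ^ (p k - 2) *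
    ‖hg (u0 n) z - c k • g k z‖ ^ 2 with hF
  have hFi : Integrable F := hint k
  have hF0 : ∀ z, 0 ≤ F z := fun z => by positivity
  have ht3 : 0 < t ^ 3 := by positivity
  have hmk := mul_meas_ge_le_integral_of_nonneg (Eventually.of_forall hF0) hFi (t ^ 3)
  have hlt := hFi.measure_ge_lt_top ht3
  have hB : volume {z | t ^ 3 ≤ F z} ≤ ENNReal.ofReal (η / 2) := by
    rw [← ofReal_measureReal hlt.ne]
    apply ENNReal.ofReal_le_ofReal
    have h3 : t ^ 3 * volume.real {z | t ^ 3 ≤ F z} ≤ t ^ 3 * (η / 2) := hmk.trans h2.le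
    exact le_of_mul_le_mul_left h3 ht3
  have hsub : {z : H n | N z ≤ R ∧ ‖g k z‖ ^ (p k - 2) < 1 - τ} ⊆
      {z : H n | N z ≤ R ∧ ‖hg (u0 n) z‖ ≤ 2 * t} ∪ {z | t ^ 3 ≤ F z} := by
    intro z hz
    by_contra hcon
    rw [Set.mem_union, not_or] at hcon
    obtain ⟨hA, hBz⟩ := hcon
    have hA' : 2 * t < ‖hg (u0 n) z‖ := by
      by_contra h
      exact hA ⟨hz.1, not_lt.1 h⟩
    have hBz' : F z < t ^ 3 := by
      by_contra h
      exact hBz (not_lt.1 h)
    have hp0 : 0 ≤ p k - 2 := by linarith [(hp k).1]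
    have hp1 : p k - 2 ≤ 1 := by linarith [(hp k).2]
    -- the difference is at most `t`
    have hd : ‖hg (u0 n) z - c k • g k z‖ ≤ t := by
      by_contra h
      have h' := (not_le.1 h).le
      have h3 : t ≤ (‖hg (u0 n) z‖ + ‖c k • g k z‖) ^ (p k - 2) := by
        have h4 : t ≤ ‖hg (u0 n) z‖ + ‖c k • g k z‖ := by
          have := norm_nonneg (c k • g k z)
          linarith
        calc t = t ^ (1 : ℝ) := (Real.rpow_one t).symm
          _ ≤ t ^ (p k - 2) := Real.rpow_le_rpow_of_exponent_ge ht0 ht1 hp1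
          _ ≤ _ := Real.rpow_le_rpow ht0.le h4 hp0
      have h5 : t ^ 2 ≤ ‖hg (u0 n) z - c k • g k z‖ ^ 2 := pow_le_pow_left₀ ht0.le h' 2
      have h6 : t ^ 3 ≤ F z := by
        calc t ^ 3 = t * t ^ 2 := by ring
          _ ≤ _ := mul_le_mul h3 h5 (by positivity) (by positivity)
      linarith
    have hG : t ≤ c k * ‖g k z‖ := by
      have h3 : ‖hg (u0 n) z‖ - ‖c k • g k z‖ ≤ ‖hg (u0 n) z - c k • g k z‖ :=
        norm_sub_norm_le _ _
      have h4 : ‖c k • g k z‖ = c k * ‖g k z‖ := by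
        rw [norm_smul, Real.norm_eq_abs, abs_of_pos (hc k).1]
      rw [h4] at h3
      linarith
    have hgm : m ≤ ‖g k z‖ := by
      refine (min_le_right _ _).trans ?_
      rw [div_le_iff₀ hC]
      have h5 : c k * ‖g k z‖ ≤ C * ‖g k z‖ :=
        mul_le_mul_of_nonneg_right (hc k).2 (norm_nonneg _)
      linarith
    have h7 : m ^ (p k - 2) ≤ ‖g k z‖ ^ (p k - 2) := Real.rpow_le_rpow hm0.le hgm hp0
    have h8 := hz.2
    linarith
  calc volume {z : H n | N z ≤ R ∧ ‖g k z‖ ^ (p k - 2) < 1 - τ}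
      ≤ volume ({z : H n | N z ≤ R ∧ ‖hg (u0 n) z‖ ≤ 2 * t} ∪ {z | t ^ 3 ≤ F z}) :=
        measure_mono hsub
    _ ≤ volume {z : H n | N z ≤ R ∧ ‖hg (u0 n) z‖ ≤ 2 * t} + volume {z | t ^ 3 ≤ F z} :=
        measure_union_le _ _
    _ ≤ ENNReal.ofReal (η / 2) + ENNReal.ofReal (η / 2) := add_le_add ht hB
    _ = ENNReal.ofReal η := by
        rw [← ENNReal.ofReal_add (by linarith) (by linarith)]
        congr 1
        ring

end Pool.Agent.H91.HP
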